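import Pool.Agent.Helper17.SA.St3

/-!
# Project SA, module LFT: lifting through a product of nonabelian simple groups
-/

set_option autoImplicit false

open scoped Pointwise
open Equiv Pool.Agent.Helper17.SA

namespace Pool.Agent.Helper57.SA

theorem center_triv {S : Type} [Group S] (hs : IsSimpleGroup S) (hn : ∃ a b : S, a * b ≠ b * a)
    (z : S) (hz : ∀ a, z * a = a * z) : z = 1 := by
  have hmem : z ∈ Subgroup.center S := by
    rw [Subgroup.mem_center_iff]
    intro a
    exact (hz a).symm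
  rcases hs.eq_bot_or_eq_top_of_normal (Subgroup.center S) inferInstance with h | h
  · rw [h] at hmem
    exact Subgroup.mem_bot.1 hmem
  · obtain ⟨a, b, hab⟩ := hn
    exfalso
    apply hab
    have : b ∈ Subgroup.center S := by rw [h]; trivial
    exact (Subgroup.mem_center_iff.1 this a)

theorem pLFT : StMN → StLF1 → StLFT := by
  classical
  intro hMN hLF1 G _ _ N _ Ω _ S _ hsimp hnc hamp ⟨e⟩ ι _ p hp hinj hsync P
  have hfinpi : Finite (∀ ω, S ω) := Finite.of_equiv N e.toEquiv
  haveI hfin : ∀ ω, Finite (S ω) := fun ω =>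
    Finite.of_injective (fun a : S ω => (Pi.mulSingle ω a : ∀ ω, S ω)) (Pi.mulSingle_injective ω)
  have hcent : ∀ m ∈ N, (∀ m' ∈ N, m * m' = m' * m) → m = 1 := by
    intro m hm hc
    have h1 : e ⟨m, hm⟩ = 1 := by
      funext ω
      apply center_triv (hsimp ω) (hnc ω)
      intro a
      have h2 := hc (e.symm (Pi.mulSingle ω a)) (e.symm (Pi.mulSingle ω a)).2
      have h3 : (⟨m, hm⟩ : N) * e.symm (Pi.mulSingle ω a) =
          e.symm (Pi.mulSingle ω a) * ⟨m, hm⟩ := Subtype.ext h2
      have h4 := congrArg e h3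
      rw [map_mul, map_mul, MulEquiv.apply_symm_apply] at h4
      have h5 := congrFun h4 ω
      simpa using h5
    have h6 : (⟨m, hm⟩ : N) = 1 := by
      apply e.injective
      rw [h1, map_one]
    exact congrArg Subtype.val h6
  obtain ⟨h, R, c, hcN, hRp, hcomm, hx, hlast⟩ := hLF1 G N hcent ι p hp hinj hsync P
  let ρ : G →* MulAut (∀ ω, S ω) := (MulAut.congr e).toMonoidHom.comp MulAut.conjNormal
  have hρ : ∀ (g : G) (v : ∀ ω, S ω), ρ g v = e (MulAut.conjNormal g (e.symm v)) :=
    fun g v => rfl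
  have hρN : ∀ (n : N), ρ n = MulAut.conj (e n) := by
    intro n
    ext1 v
    rw [hρ, MulAut.conj_apply]
    have : MulAut.conjNormal (n : G) (e.symm v) = n * e.symm v * n⁻¹ := by
      apply Subtype.ext
      rw [MulAut.conjNormal_apply]
      rfl
    rw [this, map_mul, map_mul, MulEquiv.apply_symm_apply, map_inv]
  obtain ⟨n, hn⟩ := hMN Ω S hsimp hnc hamp ι p (fun i => (R i).map ρ)
    (fun i => e ⟨c i, hcN i⟩) hp hinj (fun i => (hRp i).map ρ) (by
      intro i j hij y hy z hz
      obtain ⟨y0, hy0, rfl⟩ := hy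
      obtain ⟨z0, hz0, rfl⟩ := hz
      obtain ⟨m, hm, hyz⟩ := hcomm i j hij y0 hy0 z0 hz0
      refine ⟨e ⟨m, hm⟩, ?_⟩
      rw [← hρN ⟨m, hm⟩]
      change ρ y0 * ρ z0 = ρ m * (ρ z0 * ρ y0)
      rw [← map_mul, hyz, map_mul, map_mul])
  refine ⟨h * (e.symm n : N), fun i => le_antisymm ?_ ?_⟩
  · intro y hy
    obtain ⟨hy1, hy2⟩ := Subgroup.mem_inf.1 hy
    rw [Subgroup.mem_pointwise_smul_iff_inv_smul_mem] at hy2
    have hy3 : (h * (e.symm n : N)) * y * (h * (e.symm n : N))⁻¹ ∈ (P i : Subgroup G) := by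
      have : ((MulAut.conj (h * ((e.symm n : N) : G))⁻¹)⁻¹ • y) =
          (h * (e.symm n : N)) * y * (h * (e.symm n : N))⁻¹ := by
        rw [← map_inv, inv_inv, MulAut.smul_def, MulAut.conj_apply]
      rw [← this]
      exact hy2
    obtain ⟨hyR, hyR2⟩ := hx (e.symm n : N) (e.symm n).2 i y hy1 hy3
    have h1 : ρ y = 1 := by
      apply hn i (ρ y) ⟨y, hyR, rfl⟩
      refine ⟨_, hyR2, ?_⟩
      rw [map_mul, map_mul, map_inv]
      have h2 : ρ (c i * (e.symm n : N)) = MulAut.conj (e ⟨c i, hcN i⟩ * n) := by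
        have := hρN (⟨c i, hcN i⟩ * e.symm n)
        rw [map_mul, MulEquiv.apply_symm_apply] at this
        exact this
      rw [h2]
    have h3 : ∀ m ∈ N, y * m = m * y := by
      intro m hm
      have h4 : ρ y (e ⟨m, hm⟩) = e ⟨m, hm⟩ := by
        rw [h1]
        rfl
      rw [hρ, MulEquiv.symm_apply_apply] at h4
      have h5 := congrArg Subtype.val (e.injective h4)
      rw [MulAut.conjNormal_apply] at h5
      have h6 : y * m * y⁻¹ = m := h5
      calc y * m = (y * m * y⁻¹) * y := by group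
        _ = m * y := by rw [h6]
    rw [Subgroup.mem_iInf]
    intro Q
    exact hlast i y hyR h3 Q
  · refine le_inf (iInf_le _ (P i)) ?_
    have := iInf_le (fun Q : Sylow (p i) G => (Q : Subgroup G))
      ((h * ((e.symm n : N) : G))⁻¹ • P i)
    exact this

end Pool.Agent.Helper57.SA
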