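import Pool.Agent.Helper17.SA.St4

/-! Module C55 of project SA: the counts for `A_5`, `p = 5`. -/

set_option autoImplicit false

namespace Pool.Agent.Helper57.SA.C55

open Equiv Pool.Agent.Helper17.SA
open scoped Pointwise

/-- values of the elements of the Klein group fixing `0` -/
def vf : Fin 4 → Fin 5 → Fin 5 :=
  ![![0, 1, 2, 3, 4], ![0, 2, 1, 4, 3], ![0, 3, 4, 1, 2], ![0, 4, 3, 2, 1]]

theorem vf_inv : ∀ s i, vf s (vf s i) = i := by decide

/-- the Klein group fixing `0` -/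
def v (s : Fin 4) : Perm (Fin 5) := Function.Involutive.toPerm (vf s) (vf_inv s)

theorem v_all : ∀ y : Perm (Fin 5), y 0 = 0 → y * y = 1 → Perm.sign y = 1 → ∃ s, y = v s := by
  decide +kernel

theorem v_prop : ∀ s : Fin 4, v s 0 = 0 ∧ v s * v s = 1 ∧ Perm.sign (v s) = 1 := by
  decide +kernel

theorem v_mul : ∀ s t : Fin 4, v s * v t * (v s * v t) = 1 := by
  decide +kernel

theorem v_inj : ∀ s t : Fin 4, v s = v t → s = t := by
  decide +kernel

/-- differences constant -/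
def N0 (m : Fin 5 → Fin 5) : Prop := ∃ d : Fin 5, ∀ i, m (i + 1) = m i + d

/-- differences equal up to a shift -/
def R0 (m x : Fin 5 → Fin 5) : Prop :=
  ∃ b : Fin 5, ∀ i, m (i + 1) - m i = x (i + b + 1) - x (i + b)

instance (m : Fin 5 → Fin 5) : Decidable (N0 m) := by unfold N0; infer_instance
instance (m x : Fin 5 → Fin 5) : Decidable (R0 m x) := by unfold R0; infer_instance

/-- representatives -/
def xr : Fin 4 → Fin 5 → Fin 5 :=
  ![![0, 1, 2, 4, 3], ![0, 1, 3, 4, 2], ![0, 1, 4, 3, 2], ![0, 2, 1, 4, 3]]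

theorem rep : ∀ x : Perm (Fin 5), N0 x ∨ ∃ k, R0 x (xr k) := by
  decide +kernel

theorem count1' : ∀ g : Perm (Fin 5), g 0 = 1 → g 1 = 0 →
    (Finset.univ.filter (fun st : Fin 4 × Fin 4 => N0 ⇑(v st.1 * g * v st.2))).card ≤ 5 := by
  decide +kernel

theorem count2' : ∀ g : Perm (Fin 5), g 0 = 1 → g 1 = 0 → ∀ k,
    (Finset.univ.filter (fun st : Fin 4 × Fin 4 => N0 ⇑(v st.1 * g * v st.2) ∨
      R0 ⇑(v st.1 * g * v st.2) (xr k))).card ≤ 10 := by
  decide +kernel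

/-- the group law of the Klein group -/
def xo : Fin 4 → Fin 4 → Fin 4 :=
  ![![0, 1, 2, 3], ![1, 0, 3, 2], ![2, 3, 0, 1], ![3, 2, 1, 0]]

theorem v_xo : ∀ s t : Fin 4, v (xo s t) = v s * v t := by
  decide +kernel

theorem xo_inj : ∀ s t u : Fin 4, (xo s u = xo t u → s = t) ∧ (xo u s = xo u t → s = t) := by
  decide

theorem v_trans : ∀ i : Fin 5, i ≠ 0 → ∃ s, v s i = 1 ∧ v s 1 = i := by
  decide +kernel

theorem normalize (g : Perm (Fin 5)) (hg : g 0 ≠ 0) : ∃ s t : Fin 4,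
    (v s * g * v t) 0 = 1 ∧ (v s * g * v t) 1 = 0 := by
  have hg' : g.symm 0 ≠ 0 := by
    intro h
    apply hg
    rw [← h, Equiv.apply_symm_apply]
    exact h.symm
  obtain ⟨s, hs, _⟩ := v_trans (g 0) hg
  obtain ⟨t, _, ht⟩ := v_trans (g.symm 0) hg'
  refine ⟨s, t, ?_, ?_⟩
  · rw [Perm.mul_apply, Perm.mul_apply, (v_prop t).1, hs]
  · rw [Perm.mul_apply, Perm.mul_apply, ht, Equiv.apply_symm_apply, (v_prop s).1]

theorem card_normalize (Q : (Fin 5 → Fin 5) → Prop) [DecidablePred Q] (g : Perm (Fin 5))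
    (s0 t0 : Fin 4) :
    (Finset.univ.filter (fun st : Fin 4 × Fin 4 => Q ⇑(v st.1 * g * v st.2))).card ≤
      (Finset.univ.filter (fun st : Fin 4 × Fin 4 =>
        Q ⇑(v st.1 * (v s0 * g * v t0) * v st.2))).card := by
  refine Finset.card_le_card_of_injOn (fun st => (xo st.1 s0, xo t0 st.2)) ?_ ?_
  · intro st hst
    simp only [Finset.coe_filter, Finset.mem_univ, true_and, Set.mem_ofPred_eq] at hst ⊢
    have h1 : v (xo st.1 s0) * (v s0 * g * v t0) * v (xo t0 st.2) = v st.1 * g * v st.2 := by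
      rw [v_xo, v_xo]
      have a1 : v s0 * v s0 = 1 := (v_prop s0).2.1
      have a2 : v t0 * v t0 = 1 := (v_prop t0).2.1
      calc v st.1 * v s0 * (v s0 * g * v t0) * (v t0 * v st.2)
          = v st.1 * (v s0 * v s0) * g * (v t0 * v t0) * v st.2 := by group
        _ = v st.1 * g * v st.2 := by rw [a1, a2, mul_one, mul_one]
    rw [h1]
    exact hst
  · rintro ⟨s, t⟩ _ ⟨s', t'⟩ _ h
    simp only [Prod.mk.injEq] at h
    rw [(xo_inj s s' s0).1 h.1, (xo_inj t t' t0).2 h.2]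

theorem count1 (g : Perm (Fin 5)) (hg : g 0 ≠ 0) :
    (Finset.univ.filter (fun st : Fin 4 × Fin 4 => N0 ⇑(v st.1 * g * v st.2))).card ≤ 5 := by
  obtain ⟨s, t, h1, h2⟩ := normalize g hg
  exact (card_normalize N0 g s t).trans (count1' _ h1 h2)

theorem count2 (g : Perm (Fin 5)) (hg : g 0 ≠ 0) (k : Fin 4) :
    (Finset.univ.filter (fun st : Fin 4 × Fin 4 => N0 ⇑(v st.1 * g * v st.2) ∨
      R0 ⇑(v st.1 * g * v st.2) (xr k))).card ≤ 10 := by
  obtain ⟨s, t, h1, h2⟩ := normalize g hg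
  exact (card_normalize (fun m => N0 m ∨ R0 m (xr k)) g s t).trans (count2' _ h1 h2 k)

theorem N0_of_R0 {m x : Fin 5 → Fin 5} (h : R0 m x) (hx : N0 x) : N0 m := by
  obtain ⟨b, hb⟩ := h
  obtain ⟨d, hd⟩ := hx
  refine ⟨d, fun i => ?_⟩
  have h1 := hb i
  rw [hd (i + b), add_sub_cancel_left] at h1
  rw [← h1]
  abel

theorem R0_trans {m x y : Fin 5 → Fin 5} (h : R0 m x) (hx : R0 x y) : R0 m y := by
  obtain ⟨b, hb⟩ := h
  obtain ⟨c, hc⟩ := hx
  refine ⟨b + c, fun i => ?_⟩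
  rw [hb i, hc (i + b)]
  simp only [add_assoc]

theorem count3 (g x : Perm (Fin 5)) (hg : g 0 ≠ 0) :
    (Finset.univ.filter (fun st : Fin 4 × Fin 4 => N0 ⇑(v st.1 * g * v st.2) ∨
      R0 ⇑(v st.1 * g * v st.2) x)).card ≤ 10 := by
  rcases rep x with hx | ⟨k, hk⟩
  · refine (Finset.card_le_card ?_).trans ((count1 g hg).trans (by norm_num))
    intro st hst
    simp only [Finset.mem_filter, Finset.mem_univ, true_and] at hst ⊢
    exact hst.elim id fun h => N0_of_R0 h hx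
  · refine (Finset.card_le_card ?_).trans (count2 g hg k)
    intro st hst
    simp only [Finset.mem_filter, Finset.mem_univ, true_and] at hst ⊢
    exact hst.imp id fun h => R0_trans h hk

/-- the group -/
abbrev A := alternatingGroup (Fin 5)

theorem card_A : Nat.card A = 60 := by
  have h := two_mul_nat_card_alternatingGroup (α := Fin 5)
  rw [Nat.card_perm, Nat.card_eq_fintype_card (α := Fin 5), Fintype.card_fin] at h
  have h1 : (5 : ℕ).factorial = 120 := by decide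
  have h2 : 2 * Nat.card A = 120 := h.trans h1
  omega

/-- the Klein group as a subgroup -/
def K0 : Subgroup A where
  carrier := {y | (y : Perm (Fin 5)) 0 = 0 ∧ (y : Perm (Fin 5)) * y = 1}
  one_mem' := ⟨rfl, by simp⟩
  mul_mem' := by
    rintro a b ⟨ha, ha'⟩ ⟨hb, hb'⟩
    obtain ⟨s, hs⟩ := v_all a ha ha' (Perm.mem_alternatingGroup.1 a.2)
    obtain ⟨t, ht⟩ := v_all b hb hb' (Perm.mem_alternatingGroup.1 b.2)
    refine ⟨?_, ?_⟩
    · rw [Subgroup.coe_mul, Perm.mul_apply, hb, ha]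
    · rw [Subgroup.coe_mul, hs, ht]
      exact v_mul s t
  inv_mem' := by
    rintro a ⟨ha, ha'⟩
    have h : a⁻¹ = a := by
      rw [inv_eq_iff_mul_eq_one]
      exact Subtype.ext ha'
    change (((a⁻¹ : A) : Perm (Fin 5)) 0 = 0) ∧ ((a⁻¹ : A) : Perm (Fin 5)) * (a⁻¹ : A) = 1
    rw [h]
    exact ⟨ha, ha'⟩

theorem mem_K0 (y : A) : y ∈ K0 ↔ (y : Perm (Fin 5)) 0 = 0 ∧ (y : Perm (Fin 5)) * y = 1 := Iff.rfl

theorem card_K0 : Nat.card K0 = 4 := by
  have e : Fin 4 ≃ K0 := Equiv.ofBijective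
    (fun s => ⟨⟨v s, Perm.mem_alternatingGroup.2 (v_prop s).2.2⟩, (v_prop s).1, (v_prop s).2.1⟩) (by
      constructor
      · intro s t h
        exact v_inj s t (congrArg (fun z : K0 => ((z : A) : Perm (Fin 5))) h)
      · rintro ⟨y, hy⟩
        obtain ⟨s, hs⟩ := v_all y hy.1 hy.2 (Perm.mem_alternatingGroup.1 y.2)
        exact ⟨s, Subtype.ext (Subtype.ext hs.symm)⟩)
  rw [← Nat.card_congr e, Nat.card_eq_fintype_card, Fintype.card_fin]

/-- the translations as a subgroup -/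
def P0 : Subgroup A where
  carrier := {y | ∀ i, (y : Perm (Fin 5)) (i + 1) = (y : Perm (Fin 5)) i + 1}
  one_mem' := fun i => rfl
  mul_mem' := by
    intro a b ha hb i
    rw [Subgroup.coe_mul, Perm.mul_apply, Perm.mul_apply, hb, ha]
  inv_mem' := by
    intro a ha i
    have h := ha ((a : Perm (Fin 5))⁻¹ i)
    rw [Perm.inv_def, Equiv.apply_symm_apply] at h
    change ((a⁻¹ : A) : Perm (Fin 5)) (i + 1) = ((a⁻¹ : A) : Perm (Fin 5)) i + 1
    rw [Subgroup.coe_inv, Perm.inv_def, ← h, Equiv.symm_apply_apply]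

theorem mem_P0 (y : A) : y ∈ P0 ↔ ∀ i, (y : Perm (Fin 5)) (i + 1) = (y : Perm (Fin 5)) i + 1 :=
  Iff.rfl

theorem sum_of_step (f : Fin 5 → Fin 5) (h : ∀ i, f (i + 1) = f i + 1) (i : Fin 5) :
    f i = i + f 0 := by
  have h1 : f 1 = f 0 + 1 := h 0
  have h2 : f 2 = f 0 + 2 := by
    have : f 2 = f 1 + 1 := h 1
    rw [this, h1, add_assoc]; rfl
  have h3 : f 3 = f 0 + 3 := by
    have : f 3 = f 2 + 1 := h 2
    rw [this, h2, add_assoc]; rfl
  have h4 : f 4 = f 0 + 4 := by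
    have : f 4 = f 3 + 1 := h 3
    rw [this, h3, add_assoc]; rfl
  fin_cases i
  · exact (zero_add _).symm
  · exact h1.trans (add_comm _ _)
  · exact h2.trans (add_comm _ _)
  · exact h3.trans (add_comm _ _)
  · exact h4.trans (add_comm _ _)

theorem sign_add : ∀ a : Fin 5, Perm.sign (Equiv.addRight a) = 1 := by
  decide +kernel

/-- translation -/
def tr (a : Fin 5) : A := ⟨Equiv.addRight a, Perm.mem_alternatingGroup.2 (sign_add a)⟩

theorem tr_apply (a i : Fin 5) : (tr a : Perm (Fin 5)) i = i + a := rfl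

theorem mem_P0_iff (y : A) : y ∈ P0 ↔ ∃ a, y = tr a := by
  constructor
  · intro h
    refine ⟨(y : Perm (Fin 5)) 0, ?_⟩
    apply Subtype.ext
    apply Equiv.ext
    intro i
    rw [tr_apply]
    exact sum_of_step _ h i
  · rintro ⟨a, rfl⟩ i
    rw [tr_apply, tr_apply]
    abel

theorem card_P0 : Nat.card P0 = 5 := by
  have e : Fin 5 ≃ P0 := Equiv.ofBijective
    (fun s => ⟨tr s, (mem_P0_iff _).2 ⟨s, rfl⟩⟩) (by
      constructor
      · intro s t h
        have h1 := congrArg (fun z : P0 => ((z : A) : Perm (Fin 5)) 0) h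
        have h2 : (0 : Fin 5) + s = 0 + t := h1
        simpa using h2
      · rintro ⟨y, hy⟩
        obtain ⟨s, hs⟩ := (mem_P0_iff y).1 hy
        exact ⟨s, Subtype.ext hs.symm⟩)
  rw [← Nat.card_congr e, Nat.card_eq_fintype_card, Fintype.card_fin]

instance : Fact (Nat.Prime 5) := ⟨by norm_num⟩

theorem sylow_conj {p : ℕ} [Fact p.Prime] (H : Subgroup A) {k : ℕ} (hH : Nat.card H = p ^ k)
    (hi : ¬ p ∣ H.index) (V : Sylow p A) :
    ∃ u : A, ∀ y : A, y ∈ (V : Subgroup A) ↔ u * y * u⁻¹ ∈ H := by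
  have hp : IsPGroup p H := IsPGroup.of_card hH
  obtain ⟨u, hu⟩ := MulAction.exists_smul_eq A V (hp.toSylow hi)
  refine ⟨u, fun y => ?_⟩
  have h1 : u * y * u⁻¹ ∈ H ↔ u * y * u⁻¹ ∈ (u • V : Sylow p A) := by
    rw [hu, IsPGroup.mem_toSylow]
  rw [h1, Sylow.smul_def]
  change y ∈ (V : Subgroup A) ↔ u * y * u⁻¹ ∈ (MulAut.conj u • (V : Subgroup A))
  rw [Subgroup.mem_pointwise_smul_iff_inv_smul_mem, MulAut.smul_def, ← map_inv, MulAut.conj_apply]
  have : u⁻¹ * (u * y * u⁻¹) * u⁻¹⁻¹ = y := by group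
  rw [this]

theorem klein (V : Sylow 2 A) : ∃ i : Fin 5, (∀ y : A, y ∈ (V : Subgroup A) ↔
    (y : Perm (Fin 5)) i = i ∧ y * y = 1) := by
  have hidx : ¬ 2 ∣ K0.index := by
    have h := K0.card_mul_index
    rw [card_K0, card_A] at h
    omega
  obtain ⟨u, hu⟩ := sylow_conj (p := 2) (k := 2) K0 card_K0 hidx V
  refine ⟨(u : Perm (Fin 5))⁻¹ 0, fun y => ?_⟩
  rw [hu, mem_K0]
  have e1 : (((u * y * u⁻¹ : A) : Perm (Fin 5)) 0 = 0) ↔
      (y : Perm (Fin 5)) ((u : Perm (Fin 5))⁻¹ 0) = (u : Perm (Fin 5))⁻¹ 0 := by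
    rw [Subgroup.coe_mul, Subgroup.coe_mul, Subgroup.coe_inv, Perm.mul_apply, Perm.mul_apply]
    rw [← Perm.eq_inv_iff_eq]
  have e2 : (((u * y * u⁻¹ : A) : Perm (Fin 5)) * ((u * y * u⁻¹ : A) : Perm (Fin 5)) = 1) ↔
      y * y = 1 := by
    rw [← Subgroup.coe_mul, ← Subgroup.coe_one, Subtype.coe_inj]
    have : u * y * u⁻¹ * (u * y * u⁻¹) = u * (y * y) * u⁻¹ := by group
    rw [this, mul_inv_eq_one, mul_eq_left]
  rw [e1, e2]

theorem sylow5 (P : Sylow 5 A) : ∃ u : A, ∀ y : A, y ∈ (P : Subgroup A) ↔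
    ∃ a, u * y * u⁻¹ = tr a := by
  have hidx : ¬ 5 ∣ P0.index := by
    have h := P0.card_mul_index
    rw [card_P0, card_A] at h
    omega
  obtain ⟨u, hu⟩ := sylow_conj (p := 5) (k := 1) P0 (by rw [card_P0]; norm_num) hidx P
  exact ⟨u, fun y => (hu y).trans (mem_P0_iff _)⟩

theorem div5 : ∀ e : Fin 5, e ≠ 0 → ∃ k : Fin 5, k.val • e = 1 := by decide

theorem step_mul (m : Fin 5 → Fin 5) (e f : Fin 5) (h : ∀ i, m (i + e) = m i + f) (k : ℕ) :
    ∀ i, m (i + k • e) = m i + k • f := by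
  induction k with
  | zero => intro i; simp
  | succ k ih =>
    intro i
    rw [succ_nsmul, succ_nsmul, ← add_assoc, h, ih, add_assoc]

theorem N0_of_conj (m : A) (y : A) (a b : Fin 5) (hy : y = tr a) (hy1 : y ≠ 1)
    (h : m * y * m⁻¹ = tr b) : N0 (m : Perm (Fin 5)) := by
  have ha : a ≠ 0 := by
    rintro rfl
    apply hy1
    rw [hy]
    apply Subtype.ext
    apply Equiv.ext
    intro i
    rw [tr_apply, add_zero]
    rfl
  obtain ⟨k, hk⟩ := div5 a ha
  have h1 : ∀ i, (m : Perm (Fin 5)) (i + a) = (m : Perm (Fin 5)) i + b := by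
    intro i
    have h2 : m * y = tr b * m := by rw [← h]; group
    have h3 := congrArg (fun z : A => (z : Perm (Fin 5)) i) h2
    simp only [Subgroup.coe_mul, Perm.mul_apply, hy, tr_apply] at h3
    exact h3
  refine ⟨k.val • b, fun i => ?_⟩
  have h4 := step_mul _ a b h1 k.val i
  rw [hk] at h4
  exact h4

theorem bound (Q : A → Prop) (Q' : (Fin 5 → Fin 5) → Prop) [DecidablePred Q'] (V V' : Subgroup A)
    (n0 l r g : A) (hg : g = l * n0 * r)
    (hV' : ∀ a ∈ V', ∃ s, ((l * a * l⁻¹ : A) : Perm (Fin 5)) = v s)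
    (hV : ∀ b ∈ V, ∃ t, ((r⁻¹ * b * r : A) : Perm (Fin 5)) = v t)
    (hQ : ∀ n, Q n → Q' ((l * n * r : A) : Perm (Fin 5))) :
    Nat.card {n : A // InD V' V n0 n ∧ Q n} ≤
      (Finset.univ.filter (fun st : Fin 4 × Fin 4 => Q' ⇑(v st.1 * (g : Perm (Fin 5)) * v st.2))).card := by
  classical
  have hex : ∀ n : {n : A // InD V' V n0 n ∧ Q n}, ∃ st : Fin 4 × Fin 4,
      ((l * n.1 * r : A) : Perm (Fin 5)) = v st.1 * g * v st.2 := by
    rintro ⟨n, ⟨a, ha, b, hb, rfl⟩, _⟩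
    obtain ⟨s, hs⟩ := hV' a ha
    obtain ⟨t, ht⟩ := hV b hb
    refine ⟨(s, t), ?_⟩
    rw [← hs, ← ht, hg]
    simp only [← Subgroup.coe_mul]
    congr 1
    group
  choose st hst using hex
  have hinj : Function.Injective st := by
    intro n n' h
    have h1 : ((l * n.1 * r : A) : Perm (Fin 5)) = ((l * n'.1 * r : A) : Perm (Fin 5)) := by
      rw [hst, hst, h]
    have h2 := Subtype.ext h1
    exact Subtype.ext (mul_left_cancel (mul_right_cancel h2))
  have hmem : ∀ n, st n ∈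
      Finset.univ.filter (fun st : Fin 4 × Fin 4 => Q' ⇑(v st.1 * (g : Perm (Fin 5)) * v st.2)) := by
    intro n
    rw [Finset.mem_filter]
    refine ⟨Finset.mem_univ _, ?_⟩
    have := hQ n.1 n.2.2
    rw [hst n] at this
    exact this
  have h3 := Nat.card_le_card_of_injective (fun n => (⟨st n, hmem n⟩ :
    {x // x ∈ Finset.univ.filter (fun st : Fin 4 × Fin 4 => Q' ⇑(v st.1 * (g : Perm (Fin 5)) * v st.2))}))
    (fun n n' h => hinj (congrArg Subtype.val h))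
  rwa [Nat.card_eq_fintype_card (α := {x // x ∈ Finset.univ.filter
    (fun st : Fin 4 × Fin 4 => Q' ⇑(v st.1 * (g : Perm (Fin 5)) * v st.2))}), Fintype.card_coe] at h3

theorem pC55 : StC55 := by
  intro V V' n0 hreg P c x
  obtain ⟨j, hj⟩ := klein V
  obtain ⟨i, hi⟩ := klein V'
  obtain ⟨u, hu⟩ := sylow5 P
  -- the two translations
  obtain ⟨i1, hi1⟩ : ∃ i1, i1 = ((u * c : A) : Perm (Fin 5)) i := ⟨_, rfl⟩
  obtain ⟨j1, hj1⟩ : ∃ j1, j1 = (u : Perm (Fin 5)) j := ⟨_, rfl⟩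
  let l : A := tr (-i1) * u * c
  let r : A := u⁻¹ * tr j1
  let g : A := l * n0 * r
  have hl : (l : Perm (Fin 5)) i = 0 := by
    have : (l : Perm (Fin 5)) i = ((u * c : A) : Perm (Fin 5)) i + -i1 := rfl
    rw [this, ← hi1, add_neg_cancel]
  have hr : (r : Perm (Fin 5)) 0 = j := by
    have : (r : Perm (Fin 5)) 0 = (u : Perm (Fin 5)).symm (0 + j1) := rfl
    rw [this, zero_add, hj1, Equiv.symm_apply_apply]
  have hne : (n0 : Perm (Fin 5)) j ≠ i := by
    intro h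
    -- a nontrivial element of V
    let y : A := r * ⟨v 1, Perm.mem_alternatingGroup.2 (v_prop 1).2.2⟩ * r⁻¹
    have hy1 : y ≠ 1 := by
      intro h1
      have h2 : (⟨v 1, Perm.mem_alternatingGroup.2 (v_prop 1).2.2⟩ : A) = 1 := by
        have : (⟨v 1, Perm.mem_alternatingGroup.2 (v_prop 1).2.2⟩ : A) = r⁻¹ * y * r := by
          simp only [y]; group
        rw [this, h1]; group
      have h3 : v 1 = v 0 := by
        have h4 : v 1 = 1 := congrArg Subtype.val h2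
        rw [h4]
        decide +kernel
      exact absurd (v_inj _ _ h3) (by decide)
    have hyy : y * y = 1 := by
      have h2 : (⟨v 1, Perm.mem_alternatingGroup.2 (v_prop 1).2.2⟩ : A) *
          ⟨v 1, Perm.mem_alternatingGroup.2 (v_prop 1).2.2⟩ = 1 :=
        Subtype.ext (v_prop 1).2.1
      calc y * y = r * ((⟨v 1, Perm.mem_alternatingGroup.2 (v_prop 1).2.2⟩ : A) *
          ⟨v 1, Perm.mem_alternatingGroup.2 (v_prop 1).2.2⟩) * r⁻¹ := by simp only [y]; group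
        _ = 1 := by rw [h2]; group
    have hyj : (y : Perm (Fin 5)) j = j := by
      have : (y : Perm (Fin 5)) j = (r : Perm (Fin 5)) (v 1 ((r : Perm (Fin 5)).symm j)) := rfl
      rw [this, ← hr, Equiv.symm_apply_apply, (v_prop 1).1]
    apply hy1
    apply hreg y ((hj y).2 ⟨hyj, hyy⟩)
    rw [hi]
    refine ⟨?_, ?_⟩
    · have : ((n0 * y * n0⁻¹ : A) : Perm (Fin 5)) i =
          (n0 : Perm (Fin 5)) ((y : Perm (Fin 5)) ((n0 : Perm (Fin 5)).symm i)) := rfl
      rw [this, ← h, Equiv.symm_apply_apply, hyj]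
    · calc n0 * y * n0⁻¹ * (n0 * y * n0⁻¹) = n0 * (y * y) * n0⁻¹ := by group
        _ = 1 := by rw [hyy]; group
  have hg0 : (g : Perm (Fin 5)) 0 ≠ 0 := by
    intro h
    have h1 : (g : Perm (Fin 5)) 0 = (l : Perm (Fin 5)) ((n0 : Perm (Fin 5)) ((r : Perm (Fin 5)) 0)) :=
      rfl
    rw [h1, hr, ← hl] at h
    exact hne ((l : Perm (Fin 5)).injective h)
  have hV' : ∀ a ∈ (V' : Subgroup A), ∃ s, ((l * a * l⁻¹ : A) : Perm (Fin 5)) = v s := by
    intro a ha
    obtain ⟨h1, h2⟩ := (hi a).1 ha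
    apply v_all
    · have : ((l * a * l⁻¹ : A) : Perm (Fin 5)) 0 =
          (l : Perm (Fin 5)) ((a : Perm (Fin 5)) ((l : Perm (Fin 5)).symm 0)) := rfl
      rw [this, ← hl, Equiv.symm_apply_apply, h1]
    · have : l * a * l⁻¹ * (l * a * l⁻¹) = 1 := by
        calc l * a * l⁻¹ * (l * a * l⁻¹) = l * (a * a) * l⁻¹ := by group
          _ = 1 := by rw [h2]; group
      exact congrArg Subtype.val this
    · exact Perm.mem_alternatingGroup.1 (l * a * l⁻¹).2
  have hV : ∀ b ∈ (V : Subgroup A), ∃ t, ((r⁻¹ * b * r : A) : Perm (Fin 5)) = v t := by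
    intro b hb
    obtain ⟨h1, h2⟩ := (hj b).1 hb
    apply v_all
    · have : ((r⁻¹ * b * r : A) : Perm (Fin 5)) 0 =
          (r : Perm (Fin 5)).symm ((b : Perm (Fin 5)) ((r : Perm (Fin 5)) 0)) := rfl
      rw [this, hr, h1, ← hr, Equiv.symm_apply_apply]
    · have : r⁻¹ * b * r * (r⁻¹ * b * r) = 1 := by
        calc r⁻¹ * b * r * (r⁻¹ * b * r) = r⁻¹ * (b * b) * r := by group
          _ = 1 := by rw [h2]; group
      exact congrArg Subtype.val this
    · exact Perm.mem_alternatingGroup.1 (r⁻¹ * b * r).2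
  -- the transported element
  have htrans : ∀ n : A, ∀ i', ((l * n * r : A) : Perm (Fin 5)) i' =
      ((u * (c * n) * u⁻¹ : A) : Perm (Fin 5)) (i' + j1) + -i1 := by
    intro n i'
    rfl
  have hbad : ∀ n : A, Bad (P : Subgroup A) (c * n) → N0 ((l * n * r : A) : Perm (Fin 5)) := by
    rintro n ⟨y, hy, hy1, hy2⟩
    obtain ⟨a, ha⟩ := (hu y).1 hy
    obtain ⟨b, hb⟩ := (hu _).1 hy2
    have h1 : N0 ((u * (c * n) * u⁻¹ : A) : Perm (Fin 5)) := by
      refine N0_of_conj (u * (c * n) * u⁻¹) (u * y * u⁻¹) a b ha ?_ ?_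
      · intro h
        apply hy1
        have : y = u⁻¹ * (u * y * u⁻¹) * u := by group
        rw [this, h]; group
      · rw [← hb]; group
    obtain ⟨d, hd⟩ := h1
    refine ⟨d, fun i' => ?_⟩
    rw [htrans, htrans]
    have : i' + 1 + j1 = i' + j1 + 1 := by abel
    rw [this, hd]
    abel
  have hdc : ∀ n : A, (∃ a ∈ P, ∃ b ∈ P, c * n = a * x * b) →
      R0 ((l * n * r : A) : Perm (Fin 5)) ((u * x * u⁻¹ : A) : Perm (Fin 5)) := by
    rintro n ⟨a, ha, b, hb, hab⟩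
    obtain ⟨a', ha'⟩ := (hu a).1 ha
    obtain ⟨b', hb'⟩ := (hu b).1 hb
    have h1 : u * (c * n) * u⁻¹ = tr a' * (u * x * u⁻¹) * tr b' := by
      rw [hab, ← ha', ← hb']; group
    have h2 : ∀ i', ((l * n * r : A) : Perm (Fin 5)) i' =
        ((u * x * u⁻¹ : A) : Perm (Fin 5)) (i' + j1 + b') + a' + -i1 := by
      intro i'
      rw [htrans, h1]
      rfl
    refine ⟨j1 + b', fun i' => ?_⟩
    rw [h2, h2]
    have e1 : i' + 1 + j1 + b' = i' + (j1 + b') + 1 := by abel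
    have e2 : i' + j1 + b' = i' + (j1 + b') := by abel
    rw [e1, e2]
    abel
  refine ⟨?_, ?_⟩
  · exact (bound (fun n => Bad (P : Subgroup A) (c * n)) N0 V V' n0 l r g rfl hV' hV hbad).trans
      (count1 g hg0)
  · refine (bound (fun n => Bad (P : Subgroup A) (c * n) ∨ ∃ a ∈ P, ∃ b ∈ P, c * n = a * x * b)
      (fun m => N0 m ∨ R0 m ((u * x * u⁻¹ : A) : Perm (Fin 5))) V V' n0 l r g rfl hV' hV ?_).trans
      (count3 g ((u * x * u⁻¹ : A) : Perm (Fin 5)) hg0)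
    exact fun n hn => hn.imp (hbad n) (hdc n)

end Pool.Agent.Helper57.SA.C55

namespace Pool.Agent.Helper57.SA

theorem pC55 : Pool.Agent.Helper17.SA.StC55 := C55.pC55

end Pool.Agent.Helper57.SA
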